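import Mathlib.Topology.MetricSpace.Gluing
import Pool.Agent.Q154.ThreeSpaces

set_option autoImplicit false

/-!
# Three spaces whose Gromov–Hausdorff distances cannot be realized simultaneously (MP_975509_gt)
-/

open Metric Set GromovHausdorff

universe u

namespace Pool.Agent.Results.MP_975509_gt.FourPointSpaces

open Q154.ThreeSpaces

/-- In the three spaces, the Gromov–Hausdorff distances are at most `1`. -/
theorem ghDist_le {i j : Fin 3} (hij : i < j) : ghDist (Sp i) (Sp j) ≤ 1 := by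
  let Φ : Sp i → Sp i := id
  let Ψ : Sp i → Sp j := tgt i j
  have H : ∀ p q, |dist (Φ p) (Φ q) - dist (Ψ p) (Ψ q)| ≤ 2 * 1 := by
    intro p q
    rw [mul_one]
    exact real_of_cl (tgt_close i j hij p q)
  let M : MetricSpace (Sp i ⊕ Sp j) := glueMetricApprox Φ Ψ 1 one_pos H
  have h1 : Isometry (Sum.inl : Sp i → Sp i ⊕ Sp j) := Isometry.of_dist_eq fun x y => rfl
  have h2 : Isometry (Sum.inr : Sp j → Sp i ⊕ Sp j) := Isometry.of_dist_eq fun x y => rfl
  refine (ghDist_le_hausdorffDist h1 h2).trans ?_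
  refine hausdorffDist_le_of_mem_dist zero_le_one ?_ ?_
  · rintro _ ⟨x, rfl⟩
    exact ⟨Sum.inr (Ψ x), mem_range_self _, (glueDist_glued_points Φ Ψ 1 x).le⟩
  · rintro _ ⟨y, rfl⟩
    obtain ⟨x, hx⟩ := tgt_surj i j hij y
    refine ⟨Sum.inl (Φ x), mem_range_self _, ?_⟩
    have e : y = Ψ x := hx.symm
    rw [e, dist_comm]
    exact (glueDist_glued_points Φ Ψ 1 x).le

/-- If the images have Hausdorff distance at most `1` then matching points are close. -/
theorem close {Z : Type*} [MetricSpace Z] {i j : Fin 3} (hij : i < j) (φ : Sp i → Z) (ψ : Sp j → Z)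
    (hφ : Isometry φ) (hψ : Isometry ψ) (h : hausdorffDist (range φ) (range ψ) ≤ 1) :
    ∀ x : Fin 4, dist (φ x) (ψ (tgt i j x)) ≤ 1 := by
  have hex : ∀ x : Fin 4, ∃ y : Fin 4, dist (φ x) (ψ y) ≤ 1 := by
    intro x
    by_contra hcon
    push Not at hcon
    obtain ⟨y₀, _, hy₀⟩ := Finset.exists_min_image (Finset.univ : Finset (Fin 4))
      (fun y => dist (φ x) (ψ y)) ⟨0, Finset.mem_univ _⟩
    have h1 : hausdorffDist (range φ) (range ψ) < dist (φ x) (ψ y₀) := h.trans_lt (hcon y₀)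
    have hfin : hausdorffEDist (range φ) (range ψ) ≠ ⊤ :=
      hausdorffEDist_ne_top_of_nonempty_of_bounded (range_nonempty φ) (range_nonempty ψ)
        (Set.toFinite _).isBounded (Set.toFinite _).isBounded
    obtain ⟨_, ⟨y, rfl⟩, hy⟩ := exists_dist_lt_of_hausdorffDist_lt (mem_range_self x) h1 hfin
    exact absurd (hy₀ y (Finset.mem_univ _)) (not_le.2 hy)
  intro x
  obtain ⟨y, hy⟩ := hex x
  have key := rel_sub hij (fun x y => dist (φ x) (ψ y) ≤ 1) hex (by
    intro x y x' y' h1 h2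
    apply cl_of_real
    have e1 : ((m i x x' : ℕ) : ℝ) = dist (φ x) (φ x') := (hφ.dist_eq x x').symm
    have e2 : ((m j y y' : ℕ) : ℝ) = dist (ψ y) (ψ y') := (hψ.dist_eq y y').symm
    rw [e1, e2, abs_le]
    have h5 := dist_triangle4 (φ x) (ψ y) (ψ y') (φ x')
    have h6 := dist_triangle4 (ψ y) (φ x) (φ x') (ψ y')
    rw [dist_comm (ψ y') (φ x')] at h5
    rw [dist_comm (ψ y) (φ x)] at h6
    constructor <;> linarith) x y hy
  rw [← key]
  exact hy

/-- There are three compact metric spaces (with four points each) such that for all isometric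
embeddings into a common metric space one of the three Hausdorff distances is strictly greater
than the corresponding Gromov–Hausdorff distance. -/
theorem result :
    ∃ (X₁ X₂ X₃ : Type) (_ : MetricSpace X₁) (_ : MetricSpace X₂) (_ : MetricSpace X₃)
      (_ : CompactSpace X₁) (_ : CompactSpace X₂) (_ : CompactSpace X₃)
      (_ : Nonempty X₁) (_ : Nonempty X₂) (_ : Nonempty X₃),
      (Nat.card X₁ = 4 ∧ Nat.card X₂ = 4 ∧ Nat.card X₃ = 4) ∧
      ∀ (Z : Type u) [MetricSpace Z] (φ₁ : X₁ → Z) (φ₂ : X₂ → Z) (φ₃ : X₃ → Z),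
        Isometry φ₁ → Isometry φ₂ → Isometry φ₃ →
        ghDist X₁ X₂ < hausdorffDist (range φ₁) (range φ₂) ∨
        ghDist X₁ X₃ < hausdorffDist (range φ₁) (range φ₃) ∨
        ghDist X₂ X₃ < hausdorffDist (range φ₂) (range φ₃) := by
  refine ⟨Sp 0, Sp 1, Sp 2, instMetric 0, instMetric 1, instMetric 2,
    inferInstance, inferInstance, inferInstance, inferInstance, inferInstance, inferInstance,
    ⟨?_, ?_, ?_⟩, ?_⟩
  · exact Nat.card_eq_fintype_card.trans (Fintype.card_fin 4)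
  · exact Nat.card_eq_fintype_card.trans (Fintype.card_fin 4)
  · exact Nat.card_eq_fintype_card.trans (Fintype.card_fin 4)
  · intro Z _ φ₁ φ₂ φ₃ h₁ h₂ h₃
    by_contra hcon
    push Not at hcon
    obtain ⟨c12, c13, c23⟩ := hcon
    have k12 := close (i := 0) (j := 1) (by decide) φ₁ φ₂ h₁ h₂
      (c12.trans (ghDist_le (by decide))) (0 : Fin 4)
    have k13 := close (i := 0) (j := 2) (by decide) φ₁ φ₃ h₁ h₃
      (c13.trans (ghDist_le (by decide))) (0 : Fin 4)
    have k23 := close (i := 1) (j := 2) (by decide) φ₂ φ₃ h₂ h₃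
      (c23.trans (ghDist_le (by decide))) (0 : Fin 4)
    have t12 : tgt 0 1 (0 : Fin 4) = 0 := by decide
    have t13 : tgt 0 2 (0 : Fin 4) = 1 := by decide
    have t23 : tgt 1 2 (0 : Fin 4) = 0 := by decide
    rw [t12] at k12
    rw [t13] at k13
    rw [t23] at k23
    have h4 := dist_triangle4 (φ₃ (1 : Fin 4)) (φ₁ (0 : Fin 4)) (φ₂ (0 : Fin 4)) (φ₃ (0 : Fin 4))
    rw [dist_comm (φ₃ (1 : Fin 4)) (φ₁ (0 : Fin 4))] at h4
    have h5 : dist (φ₃ (1 : Fin 4)) (φ₃ (0 : Fin 4)) = ((m 2 1 0 : ℕ) : ℝ) := h₃.dist_eq _ _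
    have h6 : m 2 1 0 = 20 := by decide
    rw [h5, h6] at h4
    norm_num at h4
    linarith

end Pool.Agent.Results.MP_975509_gt.FourPointSpaces
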